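import Pool.Agent.helper71.DSW.SpecB

/-!
# DSW PRL: elementary facts on random subsets
-/

set_option autoImplicit false

namespace Pool.Agent.DSW

open Equiv Finset Function Pool.Agent.helper48.PP
open scoped ENNReal Classical

theorem PRL_ite {γ : Type} (C : Finset γ) (p : ℝ) (A : Finset γ → Prop) :
    Pr C p A = ∑ S ∈ C.powerset, if A S then p ^ S.card * (1 - p) ^ (C.card - S.card) else 0 := by
  unfold Pr
  rw [Finset.sum_filter]

theorem PRL_nonneg {γ : Type} (C : Finset γ) (p : ℝ) (h0 : 0 ≤ p) (h1 : p ≤ 1) (S : Finset γ) :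
    0 ≤ p ^ S.card * (1 - p) ^ (C.card - S.card) :=
  mul_nonneg (pow_nonneg h0 _) (pow_nonneg (by linarith) _)

theorem PRL_four {γ : Type} (C : Finset γ) (p : ℝ) (T : Finset γ) (hT : T ⊆ C) :
    Pr C p (fun S => T ⊆ S) = p ^ T.card := by
  have h0 : Pr C p (fun S => T ⊆ S) = ∑ S ∈ C.powerset.filter (fun S => T ⊆ S),
      p ^ S.card * (1 - p) ^ (C.card - S.card) := by
    unfold Pr
    refine Finset.sum_congr ?_ (fun _ _ => rfl)
    ext S
    constructor
    · intro h
      exact Finset.mem_filter.2 ⟨(@Finset.mem_filter _ _ (_) _ _).1 h |>.1,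
        (@Finset.mem_filter _ _ (_) _ _).1 h |>.2⟩
    · intro h
      exact (@Finset.mem_filter _ _ (_) _ _).2 ⟨(Finset.mem_filter.1 h).1, (Finset.mem_filter.1 h).2⟩
  rw [h0]
  have h1 : ∑ S ∈ C.powerset.filter (fun S => T ⊆ S), p ^ S.card * (1 - p) ^ (C.card - S.card) =
      ∑ S ∈ (C \ T).powerset, p ^ T.card * (p ^ S.card * (1 - p) ^ ((C \ T).card - S.card)) := by
    refine Finset.sum_nbij' (fun S => S \ T) (fun S => T ∪ S) ?_ ?_ ?_ ?_ ?_
    · intro S hS
      rw [mem_filter, mem_powerset] at hS
      rw [mem_powerset]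
      exact Finset.sdiff_subset_sdiff hS.1 (Finset.Subset.refl T)
    · intro S hS
      rw [mem_powerset] at hS
      rw [mem_filter, mem_powerset]
      exact ⟨Finset.union_subset hT (hS.trans Finset.sdiff_subset), Finset.subset_union_left⟩
    · intro S hS
      rw [mem_filter, mem_powerset] at hS
      exact Finset.union_sdiff_of_subset hS.2
    · intro S hS
      rw [mem_powerset] at hS
      show (T ∪ S) \ T = S
      ext x
      rw [mem_sdiff, mem_union]
      constructor
      · rintro ⟨h | h, h'⟩
        · exact absurd h h'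
        · exact h
      · intro h
        exact ⟨Or.inr h, (mem_sdiff.1 (hS h)).2⟩
    · intro S hS
      rw [mem_filter, mem_powerset] at hS
      show p ^ S.card * (1 - p) ^ (C.card - S.card) =
        p ^ T.card * (p ^ (S \ T).card * (1 - p) ^ ((C \ T).card - (S \ T).card))
      have e1 : (S \ T).card + T.card = S.card := Finset.card_sdiff_add_card_eq_card hS.2
      have e2 : (C \ T).card + T.card = C.card := Finset.card_sdiff_add_card_eq_card hT
      have e3 : C.card - S.card = (C \ T).card - (S \ T).card := by omega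
      rw [e3, ← e1, pow_add]
      ring
  rw [h1, ← Finset.mul_sum, Finset.sum_pow_mul_eq_add_pow]
  rw [add_sub_cancel, one_pow, mul_one]

theorem PRL_five {γ δ : Type} (C : Finset γ) (p : ℝ) (φ : γ → δ) (hφ : Set.InjOn φ (C : Set γ))
    (A : Finset δ → Prop) : Pr (C.image φ) p A = Pr C p (fun S => A (S.image φ)) := by
  unfold Pr
  symm
  refine Finset.sum_bij (fun S _ => S.image φ) ?_ ?_ ?_ ?_
  · intro S hS
    rw [mem_filter, mem_powerset] at hS
    rw [mem_filter, mem_powerset]
    exact ⟨Finset.image_subset_image hS.1, hS.2⟩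
  · intro S hS S' hS' he
    rw [mem_filter, mem_powerset] at hS hS'
    ext x
    constructor
    · intro hx
      have h1 : φ x ∈ S'.image φ := by
        rw [← he]
        exact Finset.mem_image_of_mem φ hx
      obtain ⟨y, hy, hyx⟩ := Finset.mem_image.1 h1
      rwa [hφ (hS'.1 hy) (hS.1 hx) hyx] at hy
    · intro hx
      have h1 : φ x ∈ S.image φ := by
        rw [he]
        exact Finset.mem_image_of_mem φ hx
      obtain ⟨y, hy, hyx⟩ := Finset.mem_image.1 h1
      rwa [hφ (hS.1 hy) (hS'.1 hx) hyx] at hy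
  · intro S' hS'
    rw [mem_filter, mem_powerset] at hS'
    have h1 : (C.filter fun x => φ x ∈ S').image φ = S' := by
      ext y
      rw [mem_image]
      constructor
      · rintro ⟨x, hx, rfl⟩
        exact (mem_filter.1 hx).2
      · intro hy
        obtain ⟨x, hx, hxy⟩ := mem_image.1 (hS'.1 hy)
        exact ⟨x, mem_filter.2 ⟨hx, by rw [hxy]; exact hy⟩, hxy⟩
    refine ⟨C.filter fun x => φ x ∈ S', ?_, h1⟩
    rw [mem_filter, mem_powerset]
    refine ⟨Finset.filter_subset _ _, ?_⟩
    show A ((C.filter fun x => φ x ∈ S').image φ)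
    rw [h1]
    exact hS'.2
  · intro S hS
    rw [mem_filter, mem_powerset] at hS
    rw [Finset.card_image_of_injOn hφ,
      Finset.card_image_of_injOn (hφ.mono (Finset.coe_subset.2 hS.1))]

theorem PRL : PRL_stmt := by
  intro γ C p h0 h1
  refine ⟨?_, ?_, ?_, fun T hT => PRL_four C p T hT, fun δ φ hφ A => PRL_five C p φ hφ A⟩
  · rw [PRL_ite]
    simp only [if_true]
    rw [Finset.sum_pow_mul_eq_add_pow, add_sub_cancel, one_pow]
  · intro A B hAB
    rw [PRL_ite, PRL_ite]
    apply Finset.sum_le_sum
    intro S hS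
    rw [mem_powerset] at hS
    have h2 := PRL_nonneg C p h0 h1 S
    by_cases hA : A S
    · rw [if_pos hA, if_pos (hAB S hS hA)]
    · rw [if_neg hA]
      split_ifs
      · exact h2
      · exact le_rfl
  · intro A B
    rw [PRL_ite, PRL_ite, PRL_ite, ← Finset.sum_add_distrib]
    apply Finset.sum_le_sum
    intro S _
    have h2 := PRL_nonneg C p h0 h1 S
    by_cases hA : A S
    · rw [if_pos (Or.inl hA), if_pos hA]
      split_ifs
      · linarith
      · linarith
    · by_cases hB : B S
      · rw [if_pos (Or.inr hB), if_neg hA, if_pos hB, zero_add]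
      · rw [if_neg hA, if_neg hB, if_neg (by tauto), zero_add]

end Pool.Agent.DSW
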