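import Pool.Agent.helper71.DSW.SpecA

/-!
# DSW DYA: smallest dyadic intervals
-/

set_option autoImplicit false

namespace Pool.Agent.DSW

open Equiv Finset Function Pool.Agent.helper48.PP
open scoped ENNReal Classical

theorem DYA_half (x j : ℕ) : x / 2 ^ j / 2 = x / 2 ^ (j + 1) := by
  rw [Nat.div_div_eq_div_mul, pow_succ]

/-- two disjoint intervals with the same data are impossible -/
theorem DYA_lt (a b a' b' i : ℕ) (hab : a ≤ b) (hab' : a' ≤ b') (hlt : b < a')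
    (h1 : a / 2 ^ i = b / 2 ^ i) (h2 : a' / 2 ^ i = b' / 2 ^ i)
    (h3 : ∀ j, j < i → a / 2 ^ j ≠ b / 2 ^ j) (h4 : ∀ j, j < i → a' / 2 ^ j ≠ b' / 2 ^ j)
    (he : a / 2 ^ i = a' / 2 ^ i) : False := by
  rcases i with _ | j
  · simp only [pow_zero, Nat.div_one] at h1 he
    omega
  · have e1 := h3 j (Nat.lt_succ_self j)
    have e2 := h4 j (Nat.lt_succ_self j)
    have e3 : a / 2 ^ j ≤ b / 2 ^ j := Nat.div_le_div_right hab
    have e4 : a' / 2 ^ j ≤ b' / 2 ^ j := Nat.div_le_div_right hab'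
    have e5 : b / 2 ^ j ≤ a' / 2 ^ j := Nat.div_le_div_right hlt.le
    have f1 := DYA_half a j
    have f2 := DYA_half b j
    have f3 := DYA_half a' j
    have f4 := DYA_half b' j
    omega

theorem DYA : DYA_stmt := by
  intro h l a b hab hdis hb
  have hex : ∀ r, ∃ i, i ≤ h ∧ a r / 2 ^ i = b r / 2 ^ i ∧ ∀ j, j < i → a r / 2 ^ j ≠ b r / 2 ^ j := by
    intro r
    have h0 : ∃ i, a r / 2 ^ i = b r / 2 ^ i :=
      ⟨h, by rw [Nat.div_eq_of_lt (hb r), Nat.div_eq_of_lt (lt_of_le_of_lt (hab r) (hb r))]⟩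
    refine ⟨Nat.find h0, ?_, Nat.find_spec h0, fun j hj => Nat.find_min h0 hj⟩
    apply Nat.find_min'
    rw [Nat.div_eq_of_lt (hb r), Nat.div_eq_of_lt (lt_of_le_of_lt (hab r) (hb r))]
  choose i hi1 hi2 hi3 using hex
  have hv : ∀ r, a r / 2 ^ i r < 2 ^ h := fun r =>
    lt_of_le_of_lt (Nat.div_le_self _ _) (lt_of_le_of_lt (hab r) (hb r))
  refine ⟨fun r => (⟨i r, Nat.lt_succ_of_le (hi1 r)⟩, ⟨a r / 2 ^ i r, hv r⟩), ?_, ?_⟩
  · intro r s hrs
    obtain ⟨h1, h2⟩ := Prod.mk.inj hrs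
    have h3 : i r = i s := congrArg Fin.val h1
    have h4 : a r / 2 ^ i r = a s / 2 ^ i s := congrArg Fin.val h2
    rcases lt_trichotomy r s with h5 | h5 | h5
    · exfalso
      have e1 := hi2 s
      have e2 := hi3 s
      rw [← h3] at h4 e1 e2
      exact DYA_lt _ _ _ _ (i r) (hab r) (hab s) (hdis r s h5) (hi2 r) e1 (hi3 r) e2 h4
    · exact h5
    · exfalso
      have e1 := hi2 r
      have e2 := hi3 r
      rw [h3] at h4 e1 e2
      exact DYA_lt _ _ _ _ (i s) (hab s) (hab r) (hdis s r h5) (hi2 s) e1 (hi3 s) e2 h4.symm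
  · intro r x hx1 hx2
    show x / 2 ^ i r = a r / 2 ^ i r
    have h1 : a r / 2 ^ i r ≤ x / 2 ^ i r := Nat.div_le_div_right hx1
    have h2 : x / 2 ^ i r ≤ b r / 2 ^ i r := Nat.div_le_div_right hx2
    have h3 := hi2 r
    omega

end Pool.Agent.DSW
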